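import Pool.Agent.H61.DF.Targets
import Pool.Agent.H32.FM.MOS

/-!
# Dihedral Maass forms, row NMO: the second moment with partial sums of the coefficients

Adaptation of `Pool/Agent/H3/FC/NMO.lean` (helper3) and `Pool/Agent/H32/FM/MOS.lean` (helper32).
-/

set_option autoImplicit false

open MeasureTheory Set Filter NumberField
open scoped Real nonZeroDivisors

namespace Pool.Agent.H55.DF

open Pool.Agent.H31.CN Pool.Agent.H89.FM Pool.Agent.H61.FM Pool.Agent.H89.FC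
  Pool.Agent.H89.DF Pool.Agent.H61.DF

/-- the squarefree part of the partial sum -/
noncomputable def Wc {K : Type} [Field K] [NumberField K] (ψ : Ideal (𝓞 K) → ℂ) (M b : ℕ) : ℂ :=
  open Classical in ∑ m ∈ Sq (M / b), (if m.Coprime b then (1 : ℂ) else 0) * lc ψ m

/-- the bound for one partial sum -/
theorem onec (hSQD : T_SQD) {K : Type} [Field K] [NumberField K] (ψ : Ideal (𝓞 K) → ℂ)
    (hmul : ∀ a b : ℕ, a.Coprime b → lc ψ (a * b) = lc ψ a * lc ψ b) (x a : ℝ)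
    (ha : ∀ b : ℕ, 1 ≤ b → (b : ℝ) ≤ x → ‖lc ψ b‖ ≤ a) (hx : 1 ≤ x) :
    open Classical in
    ‖Sc ψ x‖ ^ 2 ≤ (∑ b ∈ (Finset.Icc 1 ⌊x⌋₊).filter Full, (b : ℝ) ^ (-(1 / 2) : ℝ)) *
      ∑ b ∈ (Finset.Icc 1 ⌊x⌋₊).filter Full, (b : ℝ) ^ ((1 / 2) : ℝ) * a ^ 2 * ‖Wc ψ ⌊x⌋₊ b‖ ^ 2 := by
  classical
  have e : Sc ψ x = ∑ b ∈ (Finset.Icc 1 ⌊x⌋₊).filter Full, lc ψ b * Wc ψ ⌊x⌋₊ b := by
    unfold Sc
    rw [hSQD (lc ψ) hmul ⌊x⌋₊]
    refine Finset.sum_congr rfl ?_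
    intro b _
    congr 1
    unfold Wc
    refine Finset.sum_congr rfl ?_
    intro m _
    by_cases hm : m.Coprime b
    · rw [if_pos hm, if_pos hm, one_mul]
    · rw [if_neg hm, if_neg hm, zero_mul]
  rw [e]
  have hB : ∀ b ∈ (Finset.Icc 1 ⌊x⌋₊).filter Full, 1 ≤ b := by
    intro b hb
    exact (Finset.mem_Icc.mp (Finset.mem_filter.mp hb).1).1
  refine (Pool.Agent.H32.FM.csl _ hB _ _).trans ?_
  refine mul_le_mul_of_nonneg_left ?_ ?_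
  · refine Finset.sum_le_sum ?_
    intro b hb
    have h1 := (Finset.mem_Icc.mp (Finset.mem_filter.mp hb).1)
    have h2 : (b : ℝ) ≤ x := by
      have : (b : ℝ) ≤ (⌊x⌋₊ : ℝ) := by exact_mod_cast h1.2
      exact this.trans (Nat.floor_le (by linarith))
    have h3 := ha b h1.1 h2
    have h4 : ‖lc ψ b‖ ^ 2 ≤ a ^ 2 := pow_le_pow_left₀ (norm_nonneg _) h3 2
    refine mul_le_mul_of_nonneg_right ?_ (by positivity)
    exact mul_le_mul_of_nonneg_left h4 (by positivity)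
  · exact Finset.sum_nonneg (fun b _ => by positivity)

/-- **Row NMO.** -/
theorem pf_MOSr (hTMF : T_TMFr) (hMUL : T_MULr) (hSQD : T_SQD) (hSFS : T_SFS) (hDVB : T_DVBr) :
    T_MOSr := by
  classical
  intro ε hε
  obtain ⟨κ, hκ0, hκ8, δ₀, hδ₀, C₀, k, hC₀, H⟩ := hTMF ε hε
  obtain ⟨C₁, hC₁, hdv⟩ := hDVB (ε / 8) (by linarith)
  obtain ⟨C₃, hC₃, hsf⟩ := hSFS
  set C₂ : ℝ := 1 + 4 / ε with hC₂
  have hC₂p : 0 < C₂ := by positivity
  have hlog : ∀ y : ℝ, 1 ≤ y → 1 + Real.log y ≤ C₂ * y ^ (ε / 4) := by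
    intro y hy
    have h1 : Real.log y ≤ y ^ (ε / 4) / (ε / 4) :=
      Real.log_le_rpow_div (by linarith) (by linarith)
    have h2 : (1 : ℝ) ≤ y ^ (ε / 4) := Real.one_le_rpow hy (by linarith)
    have h3 : y ^ (ε / 4) / (ε / 4) = 4 / ε * y ^ (ε / 4) := by
      field_simp
    rw [h3] at h1
    rw [hC₂, add_mul, one_mul]
    linarith
  refine ⟨κ, hκ0, hκ8, min δ₀ 1, lt_min hδ₀ one_pos, min_le_right _ _,
    (C₃ * C₂) ^ 2 * C₁ ^ 2 * C₀, k, by positivity, ?_⟩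
  intro s X V x K _ _ σ σ' S f κp ν F hs hX hV hx hxX hF
  have hV0 : 0 ≤ V := by linarith
  set M : ℕ := ⌊x⌋₊ with hM
  have hMx : (M : ℝ) ≤ x := Nat.floor_le (by linarith)
  have hM1 : 1 ≤ M := Nat.one_le_floor_iff x |>.mpr hx
  set B : Finset ℕ := (Finset.Icc 1 M).filter Full with hBdef
  set A : ℝ := ∑ b ∈ B, (b : ℝ) ^ (-(1 / 2) : ℝ) with hA
  have hA0 : 0 ≤ A := Finset.sum_nonneg (fun b _ => by positivity)
  have hAle : A ≤ C₃ * (C₂ * x ^ (ε / 4)) := by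
    refine (hsf M hM1).trans ?_
    refine mul_le_mul_of_nonneg_left ?_ hC₃.le
    refine le_trans ?_ (hlog x hx)
    have : Real.log M ≤ Real.log x := Real.log_le_log (by exact_mod_cast hM1) hMx
    linarith
  set a : ℝ := C₁ * x ^ (ε / 8) with ha
  have hlc : ∀ y ∈ S, ∀ b : ℕ, 1 ≤ b → (b : ℝ) ≤ x → ‖lc y.2 b‖ ≤ a := by
    intro y hy b hb hbx
    refine (hdv (K y.1) (σ y.1) (σ' y.1) y.1 (f y) (κp y) (ν y) y.2 (hF.rq y hy) (hF.ch y hy) b hb).trans ?_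
    refine mul_le_mul_of_nonneg_left ?_ hC₁.le
    exact Real.rpow_le_rpow (by positivity) hbx (by linarith)
  -- the bound for each `b`
  have hb1 : ∀ b ∈ B, ∑ y ∈ S, ‖Wc y.2 M b‖ ^ 2 * ‖F y s‖ ^ 2 ≤
      C₀ * (1 + |s.im| + V) ^ k * X ^ (3 / 2 + ε) * (x / b) := by
    intro b hb
    have hb2 := Finset.mem_Icc.mp (Finset.mem_filter.mp hb).1
    have hbpos : 0 < b := hb2.1
    have hN1 : 1 ≤ M / b := (Nat.one_le_div_iff hbpos).mpr hb2.2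
    have hNle : ((M / b : ℕ) : ℝ) ≤ x / b := by
      refine Nat.cast_div_le.trans ?_
      exact div_le_div_of_nonneg_right hMx (by positivity)
    have hNx : ((M / b : ℕ) : ℝ) ≤ x := by
      refine hNle.trans ?_
      exact div_le_self (by linarith) (by exact_mod_cast hb2.1)
    have hNX : ((M / b : ℕ) : ℝ) ≤ X ^ ((1 + δ₀) / 2) := by
      refine (hNx.trans hxX).trans ?_
      refine Real.rpow_le_rpow_of_exponent_le hX ?_
      have := min_le_left δ₀ 1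
      linarith
    have h := H s X V (M / b) (fun m => if m.Coprime b then (1 : ℂ) else 0) K σ σ' S f κp ν F
      hs hX hV hN1 hNX
      (by
        intro n
        by_cases hn : n.Coprime b
        · rw [if_pos hn]; simp
        · rw [if_neg hn]; simp) hF
    refine le_trans (le_of_eq ?_) (h.trans ?_)
    · rfl
    · exact mul_le_mul_of_nonneg_left hNle (by positivity)
  have hmain : ∑ y ∈ S, ‖Sc y.2 x‖ ^ 2 * ‖F y s‖ ^ 2 ≤
      A * ∑ b ∈ B, (b : ℝ) ^ ((1 / 2) : ℝ) * a ^ 2 *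
        ∑ y ∈ S, ‖Wc y.2 M b‖ ^ 2 * ‖F y s‖ ^ 2 := by
    have e1 : ∑ y ∈ S, ‖Sc y.2 x‖ ^ 2 * ‖F y s‖ ^ 2 ≤
        ∑ y ∈ S, (A * ∑ b ∈ B, (b : ℝ) ^ ((1 / 2) : ℝ) * a ^ 2 *
          ‖Wc y.2 M b‖ ^ 2) * ‖F y s‖ ^ 2 := by
      refine Finset.sum_le_sum ?_
      intro y hy
      refine mul_le_mul_of_nonneg_right ?_ (by positivity)
      exact onec hSQD y.2 (hMUL _ _ _ _ _ _ _ (hF.ch y hy)).2 x a (hlc y hy) hx
    refine e1.trans (le_of_eq ?_)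
    rw [Finset.mul_sum]
    have e2 : ∀ y ∈ S, (A * ∑ b ∈ B, (b : ℝ) ^ ((1 / 2) : ℝ) * a ^ 2 *
          ‖Wc y.2 M b‖ ^ 2) * ‖F y s‖ ^ 2 =
        ∑ b ∈ B, A * ((b : ℝ) ^ ((1 / 2) : ℝ) * a ^ 2 *
          (‖Wc y.2 M b‖ ^ 2 * ‖F y s‖ ^ 2)) := by
      intro y _
      rw [Finset.mul_sum, Finset.sum_mul]
      refine Finset.sum_congr rfl ?_
      intro b _
      ring
    rw [Finset.sum_congr rfl e2, Finset.sum_comm]
    refine Finset.sum_congr rfl ?_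
    intro b _
    rw [Finset.mul_sum, Finset.mul_sum]
  refine hmain.trans ?_
  have h5 : ∑ b ∈ B, (b : ℝ) ^ ((1 / 2) : ℝ) * a ^ 2 *
        ∑ y ∈ S, ‖Wc y.2 M b‖ ^ 2 * ‖F y s‖ ^ 2 ≤
      (a ^ 2 * (C₀ * (1 + |s.im| + V) ^ k * X ^ (3 / 2 + ε)) * x) * A := by
    rw [hA, Finset.mul_sum]
    refine Finset.sum_le_sum ?_
    intro b hb
    have hb2 := Finset.mem_Icc.mp (Finset.mem_filter.mp hb).1
    have hb0 : (0 : ℝ) < b := by exact_mod_cast hb2.1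
    refine (mul_le_mul_of_nonneg_left (hb1 b hb) (by positivity)).trans (le_of_eq ?_)
    have e : (b : ℝ) ^ (-(1 / 2) : ℝ) = (b : ℝ) ^ ((1 / 2) : ℝ) / b := by
      rw [eq_div_iff hb0.ne']
      nth_rewrite 2 [← Real.rpow_one (b : ℝ)]
      rw [← Real.rpow_add hb0]
      norm_num
    rw [e]
    ring
  refine (mul_le_mul_of_nonneg_left h5 hA0).trans ?_
  have hx0 : (0 : ℝ) < x := by linarith
  have e3 : (x ^ (ε / 8)) ^ 2 = x ^ (ε / 4) := by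
    rw [← Real.rpow_natCast, ← Real.rpow_mul hx0.le]
    congr 1
    push_cast
    ring
  have e4 : (x ^ (ε / 4)) ^ 2 = x ^ (ε / 2) := by
    rw [← Real.rpow_natCast, ← Real.rpow_mul hx0.le]
    congr 1
    push_cast
    ring
  have e5 : x ^ (ε / 4) * x ^ (ε / 2) * x ≤ x ^ (1 + ε) := by
    nth_rewrite 3 [← Real.rpow_one x]
    rw [← Real.rpow_add hx0, ← Real.rpow_add hx0]
    exact Real.rpow_le_rpow_of_exponent_le hx (by linarith)
  have hA2 : A * A ≤ (C₃ * C₂) ^ 2 * x ^ (ε / 2) := by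
    calc A * A ≤ (C₃ * (C₂ * x ^ (ε / 4))) * (C₃ * (C₂ * x ^ (ε / 4))) :=
          mul_le_mul hAle hAle hA0 (by positivity)
      _ = (C₃ * C₂) ^ 2 * (x ^ (ε / 4)) ^ 2 := by ring
      _ = _ := by rw [e4]
  set G : ℝ := C₀ * (1 + |s.im| + V) ^ k * X ^ (3 / 2 + ε) with hG
  have hG0 : 0 ≤ G := by
    rw [hG]
    positivity
  calc A * (a ^ 2 * G * x * A)
      = (A * A) * (C₁ ^ 2 * (x ^ (ε / 8)) ^ 2 * G * x) := by
        rw [ha]; ring
    _ ≤ ((C₃ * C₂) ^ 2 * x ^ (ε / 2)) *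
        (C₁ ^ 2 * (x ^ (ε / 8)) ^ 2 * G * x) :=
        mul_le_mul_of_nonneg_right hA2 (by positivity)
    _ = ((C₃ * C₂) ^ 2 * C₁ ^ 2 * G) *
        (x ^ (ε / 4) * x ^ (ε / 2) * x) := by
        rw [e3]; ring
    _ ≤ ((C₃ * C₂) ^ 2 * C₁ ^ 2 * G) *
        x ^ (1 + ε) := mul_le_mul_of_nonneg_left e5 (by positivity)
    _ = _ := by rw [hG]; ring

end Pool.Agent.H55.DF
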